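import Mathlib

/-!
# MP_bae362_pr: the posterior upper probability is completely alternating (`N₁ = N₂ = ∞`)

Idea.  Fix `A₁, ..., Aₙ`, put `D = ⋂ Aᵢ` and look at functions of `I ⊆ {1, ..., n}` through the
sets `D ∪ ⋃_{i ∈ I} Aᵢ`.  Call `f` completely monotone (`CM`) if `f I` is the sum of non-negative
weights `g J` over the `J` disjoint from `I` (a mixture of avoidance functionals).  This class is
closed under sums, products and convergent series.  `t` is in the class, and
`s + t = W - h` with `h` in the class and `h < W`, so `1/(s+t) = ∑ h^k / W^(k+1)` and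
`t/(s+t) = 1 - v_y` are in the class; this gives the alternating inequality for `v_y`.  The
`ε`-contamination model is treated in the same way.  (A term `δ > 0` is added to the denominators
first, and then `δ → 0`, in order to include vanishing denominators.)
-/

namespace Pool.Agent.Results.MP_bae362_pr.CompletelyAlternating

open MeasureTheory Filter Topology
open scoped ENNReal NNReal

/-! ## Completely monotone functions on the Boolean lattice of subsets of `Fin n` -/

section CM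

variable {n : ℕ}

/-- `f I = sum over J disjoint from I of g J` with `g >= 0` -/
def CM (f : Finset (Fin n) → ℝ) : Prop :=
  ∃ g : Finset (Fin n) → ℝ, (∀ J, 0 ≤ g J) ∧ ∀ I, f I = ∑ J ∈ (Iᶜ).powerset, g J

theorem CM.nonneg {f : Finset (Fin n) → ℝ} (hf : CM f) (I : Finset (Fin n)) : 0 ≤ f I := by
  obtain ⟨g, hg, h⟩ := hf
  rw [h]
  exact Finset.sum_nonneg fun J _ => hg J

theorem CM.const {c : ℝ} (hc : 0 ≤ c) : CM (fun _ : Finset (Fin n) => c) := by
  classical
  refine ⟨fun J => if J = ∅ then c else 0, fun J => ?_, fun I => ?_⟩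
  · dsimp only
    split_ifs
    · exact hc
    · exact le_rfl
  · rw [Finset.sum_ite_eq']
    simp

theorem CM.add {f1 f2 : Finset (Fin n) → ℝ} (h1 : CM f1) (h2 : CM f2) :
    CM (fun I => f1 I + f2 I) := by
  obtain ⟨g1, hg1, h1⟩ := h1
  obtain ⟨g2, hg2, h2⟩ := h2
  refine ⟨fun J => g1 J + g2 J, fun J => add_nonneg (hg1 J) (hg2 J), fun I => ?_⟩
  dsimp only
  rw [Finset.sum_add_distrib, h1, h2]

theorem CM.mul {f1 f2 : Finset (Fin n) → ℝ} (h1 : CM f1) (h2 : CM f2) :
    CM (fun I => f1 I * f2 I) := by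
  classical
  obtain ⟨g1, hg1, h1⟩ := h1
  obtain ⟨g2, hg2, h2⟩ := h2
  refine ⟨fun K => ∑ J1, ∑ J2, if J1 ∪ J2 = K then g1 J1 * g2 J2 else 0, fun K => ?_,
    fun I => ?_⟩
  · refine Finset.sum_nonneg fun J1 _ => Finset.sum_nonneg fun J2 _ => ?_
    split_ifs
    · exact mul_nonneg (hg1 _) (hg2 _)
    · exact le_rfl
  · dsimp only
    rw [h1, h2, Finset.sum_mul_sum]
    set P := (Iᶜ).powerset with hP
    have e1 : ∑ J1 ∈ P, ∑ J2 ∈ P, g1 J1 * g2 J2
        = ∑ J1, ∑ J2, ∑ K ∈ P, if J1 ∪ J2 = K then g1 J1 * g2 J2 else 0 := by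
      have e2 : ∀ J1 J2 : Finset (Fin n),
          (∑ K ∈ P, if J1 ∪ J2 = K then g1 J1 * g2 J2 else 0)
            = if J1 ∈ P then (if J2 ∈ P then g1 J1 * g2 J2 else 0) else 0 := by
        intro J1 J2
        rw [Finset.sum_ite_eq]
        simp only [hP, Finset.mem_powerset, Finset.union_subset_iff]
        by_cases ha : J1 ⊆ Iᶜ <;> by_cases hb : J2 ⊆ Iᶜ <;> simp [ha, hb]
      simp only [e2]
      have e3 : ∀ J1 : Finset (Fin n), (∑ J2 : Finset (Fin n),
          if J1 ∈ P then (if J2 ∈ P then g1 J1 * g2 J2 else 0) else 0)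
            = if J1 ∈ P then ∑ J2 ∈ P, g1 J1 * g2 J2 else 0 := by
        intro J1
        by_cases ha : J1 ∈ P
        · simp only [ha, if_true]
          rw [Finset.sum_ite_mem, Finset.univ_inter]
        · simp [ha]
      simp only [e3]
      rw [Finset.sum_ite_mem, Finset.univ_inter]
    rw [e1]
    have e4 : ∀ J1 : Finset (Fin n),
        (∑ J2 : Finset (Fin n), ∑ K ∈ P, if J1 ∪ J2 = K then g1 J1 * g2 J2 else 0)
          = ∑ K ∈ P, ∑ J2 : Finset (Fin n), if J1 ∪ J2 = K then g1 J1 * g2 J2 else 0 :=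
      fun J1 => Finset.sum_comm
    simp only [e4]
    exact Finset.sum_comm

theorem CM.pow {f : Finset (Fin n) → ℝ} (h : CM f) (k : ℕ) : CM (fun I => f I ^ k) := by
  induction k with
  | zero => simpa using CM.const (n := n) zero_le_one
  | succ k ih => simpa [pow_succ] using ih.mul h

/-- `1/(W - h)` is completely monotone when `h` is and `h < W` (geometric series). -/
theorem CM.inv_sub {h : Finset (Fin n) → ℝ} (hh : CM h) {W : ℝ} (hW : ∀ I, h I < W) :
    CM (fun I => 1 / (W - h I)) := by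
  classical
  have hW0 : 0 < W := lt_of_le_of_lt (hh.nonneg ∅) (hW ∅)
  choose g hg hgs using fun k => hh.pow k
  have hgeo : ∀ I, HasSum (fun k : ℕ => h I ^ k / W ^ (k + 1)) (1 / (W - h I)) := by
    intro I
    have h0 : 0 ≤ h I / W := div_nonneg (hh.nonneg I) hW0.le
    have h1 : h I / W < 1 := (div_lt_one hW0).mpr (hW I)
    have h2 := (hasSum_geometric_of_lt_one h0 h1).mul_left (1 / W)
    have e1 : 1 / W * (1 - h I / W)⁻¹ = 1 / (W - h I) := by
      have : W - h I ≠ 0 := (sub_pos.mpr (hW I)).ne'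
      field_simp
    have e2 : (fun k : ℕ => 1 / W * (h I / W) ^ k) = fun k : ℕ => h I ^ k / W ^ (k + 1) := by
      funext k
      rw [div_pow, pow_succ]
      field_simp
    rw [e1, e2] at h2
    exact h2
  have hle : ∀ k J, g k J / W ^ (k + 1) ≤ h ∅ ^ k / W ^ (k + 1) := by
    intro k J
    refine div_le_div_of_nonneg_right ?_ (by positivity)
    have hk : h ∅ ^ k = ∑ J ∈ (∅ᶜ : Finset (Fin n)).powerset, g k J := hgs k ∅
    rw [hk]
    exact Finset.single_le_sum (fun J _ => hg k J) (by simp)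
  have hsum : ∀ J, Summable (fun k : ℕ => g k J / W ^ (k + 1)) := fun J =>
    Summable.of_nonneg_of_le (fun k => div_nonneg (hg k J) (by positivity)) (fun k => hle k J)
      (hgeo ∅).summable
  refine ⟨fun J => ∑' k : ℕ, g k J / W ^ (k + 1),
    fun J => tsum_nonneg fun k => div_nonneg (hg k J) (by positivity), fun I => ?_⟩
  dsimp only
  rw [← Summable.tsum_finsetSum (fun J _ => hsum J), ← (hgeo I).tsum_eq]
  refine tsum_congr fun k => ?_
  have hk : h I ^ k = ∑ J ∈ (Iᶜ).powerset, g k J := hgs k I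
  rw [← Finset.sum_div, ← hk]

/-- the alternating sum inequality -/
theorem CM.alternating {q : Finset (Fin n) → ℝ} (hq : CM q) (hn : n ≠ 0) :
    1 - q ∅ ≤ ∑ I : Finset (Fin n) with I.Nonempty, (-1 : ℝ) ^ (I.card + 1) * (1 - q I) := by
  classical
  obtain ⟨g, hg, h⟩ := hq
  have key : ∑ I : Finset (Fin n), (-1 : ℝ) ^ I.card * (1 - q I) = - g Finset.univ := by
    have h1 : ∑ I : Finset (Fin n), (-1 : ℝ) ^ I.card = 0 := by
      have := Finset.sum_powerset_neg_one_pow_card_of_nonempty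
        (x := (Finset.univ : Finset (Fin n))) (by
          have : Nonempty (Fin n) := ⟨⟨0, Nat.pos_of_ne_zero hn⟩⟩
          exact Finset.univ_nonempty)
      have h2 : ∑ m ∈ (Finset.univ : Finset (Fin n)).powerset, (-1 : ℝ) ^ m.card = 0 := by
        exact_mod_cast this
      simpa using h2
    have h3 : ∑ I : Finset (Fin n), (-1 : ℝ) ^ I.card * q I = g Finset.univ := by
      simp only [h, Finset.mul_sum]
      have e : ∀ I : Finset (Fin n), ∑ J ∈ (Iᶜ).powerset, (-1 : ℝ) ^ I.card * g J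
          = ∑ J, if I ⊆ Jᶜ then (-1 : ℝ) ^ I.card * g J else 0 := by
        intro I
        rw [← Finset.sum_filter]
        refine Finset.sum_congr ?_ fun _ _ => rfl
        ext J
        simp only [Finset.mem_powerset, Finset.mem_filter, Finset.mem_univ, true_and]
        rw [Finset.subset_compl_comm]
      simp only [e]
      rw [Finset.sum_comm]
      have e2 : ∀ J : Finset (Fin n),
          ∑ I, (if I ⊆ Jᶜ then (-1 : ℝ) ^ I.card * g J else 0) = if J = Finset.univ then g J else 0 := by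
        intro J
        rw [← Finset.sum_filter]
        have e3 : (Finset.univ.filter fun I => I ⊆ Jᶜ) = (Jᶜ).powerset := by
          ext I; simp
        rw [e3, ← Finset.sum_mul]
        by_cases hJ : J = Finset.univ
        · subst hJ; simp
        · have hne : (Jᶜ).Nonempty := by
            rw [Finset.nonempty_iff_ne_empty]
            intro h0
            exact hJ (by simpa using congrArg compl h0)
          have := Finset.sum_powerset_neg_one_pow_card_of_nonempty hne
          have h2 : ∑ m ∈ (Jᶜ).powerset, (-1 : ℝ) ^ m.card = 0 := by exact_mod_cast this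
          rw [h2]; simp [hJ]
      simp only [e2]
      rw [Finset.sum_ite_eq']
      simp
    simp only [mul_sub, mul_one, Finset.sum_sub_distrib]
    rw [h1, h3]; ring
  have split : ∑ I : Finset (Fin n), (-1 : ℝ) ^ I.card * (1 - q I)
      = (1 - q ∅) + ∑ I : Finset (Fin n) with I.Nonempty, (-1 : ℝ) ^ I.card * (1 - q I) := by
    rw [← Finset.sum_filter_add_sum_filter_not Finset.univ (fun I : Finset (Fin n) => I.Nonempty),
      add_comm]
    congr 1
    have : (Finset.univ.filter fun I : Finset (Fin n) => ¬ I.Nonempty) = {∅} := by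
      ext I; simp
    rw [this]; simp
  have e4 : ∑ I : Finset (Fin n) with I.Nonempty, (-1 : ℝ) ^ (I.card + 1) * (1 - q I)
      = - ∑ I : Finset (Fin n) with I.Nonempty, (-1 : ℝ) ^ I.card * (1 - q I) := by
    rw [← Finset.sum_neg_distrib]
    refine Finset.sum_congr rfl fun I _ => ?_
    rw [pow_succ]; ring
  have := hg Finset.univ
  rw [e4]
  linarith

end CM

/-! ## Minima are completely monotone -/

section Min

variable {ι : Type*} [DecidableEq ι]

/-- the coefficients of `I ↦ min (b0, min over I of β)` -/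
noncomputable def G (S : Finset ι) (b0 : ℝ≥0∞) (β : ι → ℝ≥0∞) (J : Finset ι) : ℝ≥0∞ :=
  (b0 ⊓ (S \ J).inf β) - J.sup β

theorem tsub_split (x y b : ℝ≥0∞) : x - y = (x ⊓ b - y) + (x - (b ⊔ y)) := by
  rcases le_total b y with h | h
  · rw [tsub_eq_zero_of_le (inf_le_right.trans h), sup_eq_right.mpr h, zero_add]
  · rw [sup_eq_left.mpr h]
    rcases le_total x b with h' | h'
    · rw [inf_eq_left.mpr h', tsub_eq_zero_of_le h', add_zero]
    · rw [inf_eq_right.mpr h', add_comm]
      exact (tsub_add_tsub_cancel h' h).symm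

theorem min_rep (β : ι → ℝ≥0∞) (S : Finset ι) : ∀ (b0 : ℝ≥0∞) (I : Finset ι), I ⊆ S →
    b0 ⊓ I.inf β = ∑ J ∈ (S \ I).powerset, G S b0 β J := by
  induction S using Finset.induction_on with
  | empty =>
    intro b0 I hI
    have : I = ∅ := Finset.subset_empty.mp hI
    subst this
    simp [G]
  | insert k S hk ih =>
    intro b0 I hI
    by_cases hkI : k ∈ I
    · have hI' : I.erase k ⊆ S := by
        intro x hx
        rw [Finset.mem_erase] at hx
        rcases Finset.mem_insert.mp (hI hx.2) with h | h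
        · exact absurd h hx.1
        · exact h
      have e1 : insert k S \ I = S \ I.erase k := by
        ext x
        simp only [Finset.mem_sdiff, Finset.mem_insert, Finset.mem_erase]
        constructor
        · rintro ⟨h1 | h1, h2⟩
          · exact absurd (h1 ▸ hkI) h2
          · exact ⟨h1, fun h => h2 h.2⟩
        · rintro ⟨h1, h2⟩
          refine ⟨Or.inr h1, fun h => h2 ⟨?_, h⟩⟩
          rintro rfl
          exact hk h1
      have e2 : b0 ⊓ I.inf β = (b0 ⊓ β k) ⊓ (I.erase k).inf β := by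
        conv_lhs => rw [← Finset.insert_erase hkI]
        rw [Finset.inf_insert, inf_assoc]
      rw [e1, e2, ih (b0 ⊓ β k) _ hI']
      refine Finset.sum_congr rfl fun J hJ => ?_
      have hkJ : k ∉ J := fun h => hk (Finset.sdiff_subset (Finset.mem_powerset.mp hJ h))
      have e3 : insert k S \ J = insert k (S \ J) := Finset.insert_sdiff_of_notMem _ hkJ
      unfold G
      rw [e3, Finset.inf_insert, inf_assoc]
    · have hIS : I ⊆ S := fun x hx => by
        rcases Finset.mem_insert.mp (hI hx) with h | h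
        · exact absurd (h ▸ hx) hkI
        · exact h
      have e1 : insert k S \ I = insert k (S \ I) := Finset.insert_sdiff_of_notMem _ hkI
      have hk' : k ∉ S \ I := fun h => hk (Finset.sdiff_subset h)
      rw [e1, Finset.sum_powerset_insert hk', ← Finset.sum_add_distrib, ih b0 I hIS]
      refine Finset.sum_congr rfl fun J hJ => ?_
      have hJS : J ⊆ S := (Finset.mem_powerset.mp hJ).trans Finset.sdiff_subset
      have hkJ : k ∉ J := fun h => hk (hJS h)
      have e3 : insert k S \ J = insert k (S \ J) := Finset.insert_sdiff_of_notMem _ hkJ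
      have e4 : insert k S \ insert k J = S \ J := by
        ext x
        simp only [Finset.mem_sdiff, Finset.mem_insert, not_or]
        constructor
        · rintro ⟨h1 | h1, h2, h3⟩
          · exact absurd h1 h2
          · exact ⟨h1, h3⟩
        · rintro ⟨h1, h2⟩
          refine ⟨Or.inr h1, ?_, h2⟩
          rintro rfl
          exact hk h1
      unfold G
      rw [e3, e4, Finset.inf_insert, Finset.sup_insert]
      rw [tsub_split (b0 ⊓ (S \ J).inf β) (J.sup β) (β k)]
      congr 2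
      rw [inf_assoc, inf_comm (β k)]

theorem aemeasurable_finset_inf {Ω : Type*} [MeasurableSpace Ω] {P : Measure Ω}
    {β : ι → Ω → ℝ≥0∞} (hβ : ∀ i, AEMeasurable (β i) P) (S : Finset ι) :
    AEMeasurable (fun ω => S.inf fun i => β i ω) P := by
  induction S using Finset.induction_on with
  | empty => simp
  | insert k S _ ih =>
    simp only [Finset.inf_insert]
    exact (hβ k).inf ih

theorem aemeasurable_finset_sup {Ω : Type*} [MeasurableSpace Ω] {P : Measure Ω}
    {β : ι → Ω → ℝ≥0∞} (hβ : ∀ i, AEMeasurable (β i) P) (S : Finset ι) :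
    AEMeasurable (fun ω => S.sup fun i => β i ω) P := by
  induction S using Finset.induction_on with
  | empty => simp
  | insert k S _ ih =>
    simp only [Finset.sup_insert]
    exact (hβ k).sup ih

end Min

theorem cm_lintegral {n : ℕ} {Ω : Type*} [MeasurableSpace Ω] {P : Measure Ω}
    {b0 : Ω → ℝ≥0∞} {β : Fin n → Ω → ℝ≥0∞} (h0 : AEMeasurable b0 P)
    (hβ : ∀ i, AEMeasurable (β i) P) (hfin : ∫⁻ ω, b0 ω ∂P ≠ ⊤) :
    CM (fun I : Finset (Fin n) => (∫⁻ ω, b0 ω ⊓ I.inf (fun i => β i ω) ∂P).toReal) := by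
  classical
  refine ⟨fun J => (∫⁻ ω, G Finset.univ (b0 ω) (fun i => β i ω) J ∂P).toReal,
    fun J => ENNReal.toReal_nonneg, fun I => ?_⟩
  have hmeas : ∀ J : Finset (Fin n),
      AEMeasurable (fun ω => G Finset.univ (b0 ω) (fun i => β i ω) J) P := fun J =>
    (h0.inf (aemeasurable_finset_inf hβ _)).sub (aemeasurable_finset_sup hβ J)
  have hlt : ∀ J : Finset (Fin n),
      ∫⁻ ω, G Finset.univ (b0 ω) (fun i => β i ω) J ∂P ≠ ⊤ := fun J =>
    ne_top_of_le_ne_top hfin (lintegral_mono fun ω => tsub_le_self.trans inf_le_left)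
  dsimp only
  rw [← ENNReal.toReal_sum (fun J _ => hlt J), ← lintegral_finsetSum' _ (fun J _ => hmeas J)]
  congr 1
  refine lintegral_congr fun ω => ?_
  have := min_rep (fun i => β i ω) Finset.univ (b0 ω) I (Finset.subset_univ I)
  rw [this]
  rfl

/-! ## The model -/

/-- `n`-alternating set functions (on measurable sets) -/
def IsAlternating {E : Type*} [MeasurableSpace E] (n : ℕ) (v : Set E → ℝ) : Prop :=
  ∀ A : Fin n → Set E, (∀ i, MeasurableSet (A i)) →
    v (⋂ i, A i) ≤
      ∑ I : Finset (Fin n) with I.Nonempty, (-1 : ℝ) ^ (I.card + 1) * v (⋃ i ∈ I, A i)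

/-- A random closed set in `E`: a map `X` from a probability space to the non-empty closed
subsets of `E` such that for every Borel set `B` the event `X ∩ B ≠ ∅` is measurable for the
completion of `P`. -/
structure IsRandomClosedSet {Ω E : Type*} [MeasurableSpace Ω] [TopologicalSpace E]
    [MeasurableSpace E] (P : Measure Ω) (X : Ω → Set E) : Prop where
  closed : ∀ ω, IsClosed (X ω)
  nonempty : ∀ ω, (X ω).Nonempty
  hit : ∀ B : Set E, MeasurableSet B → NullMeasurableSet {ω | (X ω ∩ B).Nonempty} P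

section Q1

variable {Ω E : Type*} [MeasurableSpace Ω]

/-- `sup of L over X ∩ A` (`0` if `X ∩ A` is empty) -/
noncomputable def supOn (X : Set E) (L : E → ℝ≥0) (A : Set E) : ℝ≥0∞ :=
  ⨆ x ∈ X ∩ A, (L x : ℝ≥0∞)

open Classical in
/-- `inf of L over X` if `X ∩ A` is empty, and `0` otherwise -/
noncomputable def infOff (X : Set E) (L : E → ℝ≥0) (A : Set E) : ℝ≥0∞ :=
  if (X ∩ A).Nonempty then 0 else ⨅ x ∈ X, (L x : ℝ≥0∞)

/-- `s(A) = E sup_{x in X ∩ A} L(x)` -/
noncomputable def sFun (P : Measure Ω) (X : Ω → Set E) (L : E → ℝ≥0) (A : Set E) : ℝ≥0∞ :=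
  ∫⁻ ω, supOn (X ω) L A ∂P

/-- `t(A) = E [ inf_{x in X} L(x) ; X ∩ A = ∅ ]` -/
noncomputable def tFun (P : Measure Ω) (X : Ω → Set E) (L : E → ℝ≥0) (A : Set E) : ℝ≥0∞ :=
  ∫⁻ ω, infOff (X ω) L A ∂P

/-- The posterior upper probability `v_y(A) = s(A) / (s(A) + t(A))` (with `0/0 = 0`). -/
noncomputable def posteriorUpper (P : Measure Ω) (X : Ω → Set E) (L : E → ℝ≥0) (A : Set E) : ℝ :=
  (sFun P X L A).toReal / ((sFun P X L A).toReal + (tFun P X L A).toReal)

/-- The posterior upper probability of the `ε`-contamination model (with prior `P`),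
`((1-ε) m(A) + ε M(A)) / ((1-ε) m(E) + ε M(A))`, where `m(A) = ∫_A L dP`, `M(A) = sup_A L`;
the value is `1` if `M(A) = ∞`, and `0/0 = 0`. -/
noncomputable def contaminationUpper {E : Type*} [MeasurableSpace E] (ε : ℝ) (P : Measure E)
    (L : E → ℝ≥0) (A : Set E) : ℝ :=
  open Classical in
  if (⨆ x ∈ A, (L x : ℝ≥0∞)) = ⊤ then 1 else
    ((1 - ε) * (∫⁻ x in A, L x ∂P).toReal + ε * (⨆ x ∈ A, (L x : ℝ≥0∞)).toReal) /
      ((1 - ε) * (∫⁻ x, L x ∂P).toReal + ε * (⨆ x ∈ A, (L x : ℝ≥0∞)).toReal)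

theorem supOn_union (X : Set E) (L : E → ℝ≥0) (A B : Set E) :
    supOn X L (A ∪ B) = supOn X L A ⊔ supOn X L B := by
  unfold supOn
  rw [Set.inter_union_distrib_left, iSup_union]

theorem supOn_biUnion {ι : Type*} (X : Set E) (L : E → ℝ≥0) (A : ι → Set E) (I : Finset ι) :
    supOn X L (⋃ i ∈ I, A i) = I.sup fun i => supOn X L (A i) := by
  classical
  induction I using Finset.induction_on with
  | empty => simp [supOn]
  | insert k S _ ih =>
    rw [Finset.set_biUnion_insert, supOn_union, ih, Finset.sup_insert]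

theorem infOff_union (X : Set E) (L : E → ℝ≥0) (A B : Set E) :
    infOff X L (A ∪ B) = infOff X L A ⊓ infOff X L B := by
  classical
  unfold infOff
  have : (X ∩ (A ∪ B)).Nonempty ↔ (X ∩ A).Nonempty ∨ (X ∩ B).Nonempty := by
    rw [Set.inter_union_distrib_left, Set.union_nonempty]
  by_cases h1 : (X ∩ A).Nonempty
  · simp [h1, this]
  · by_cases h2 : (X ∩ B).Nonempty
    · simp [h2, this]
    · simp [h1, h2, this]

theorem infOff_biUnion {ι : Type*} (X : Set E) (L : E → ℝ≥0) (D : Set E) (A : ι → Set E)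
    (I : Finset ι) :
    infOff X L (D ∪ ⋃ i ∈ I, A i) = infOff X L D ⊓ I.inf fun i => infOff X L (A i) := by
  classical
  induction I using Finset.induction_on with
  | empty => simp
  | insert k S _ ih =>
    rw [Finset.set_biUnion_insert, Finset.inf_insert]
    have : D ∪ (A k ∪ ⋃ i ∈ S, A i) = A k ∪ (D ∪ ⋃ i ∈ S, A i) := by
      rw [← Set.union_assoc, ← Set.union_assoc, Set.union_comm D (A k)]
    rw [this, infOff_union, ih, ← inf_assoc, ← inf_assoc, inf_comm (infOff X L (A k))]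

/-- `sup_{X ∩ A} L` if `X` hits `A`, `inf_X L` otherwise -/
noncomputable def zOn (X : Set E) (L : E → ℝ≥0) (A : Set E) : ℝ≥0∞ :=
  supOn X L A ⊔ ⨅ x ∈ X, (L x : ℝ≥0∞)

theorem zOn_eq (X : Set E) (L : E → ℝ≥0) (A : Set E) :
    zOn X L A = supOn X L A + infOff X L A := by
  classical
  unfold zOn infOff
  by_cases h : (X ∩ A).Nonempty
  · rw [if_pos h, add_zero]
    obtain ⟨x, hx⟩ := h
    refine sup_eq_left.mpr ?_
    refine (iInf₂_le x hx.1).trans ?_
    exact le_iSup₂ (f := fun x (_ : x ∈ X ∩ A) => (L x : ℝ≥0∞)) x hx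
  · rw [if_neg h]
    have : supOn X L A = 0 := by
      unfold supOn
      rw [Set.not_nonempty_iff_eq_empty.mp h]
      simp
    rw [this, zero_add]
    simp

theorem zOn_union (X : Set E) (L : E → ℝ≥0) {ι : Type*} (D : Set E) (A : ι → Set E)
    (I : Finset ι) :
    zOn X L (D ∪ ⋃ i ∈ I, A i) = zOn X L D ⊔ I.sup fun i => zOn X L (A i) := by
  classical
  unfold zOn
  rw [supOn_union, supOn_biUnion]
  induction I using Finset.induction_on with
  | empty => simp
  | insert k S _ ih =>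
    rw [Finset.sup_insert, Finset.sup_insert]
    have e : supOn X L D ⊔ (supOn X L (A k) ⊔ S.sup fun i => supOn X L (A i))
        ⊔ ⨅ x ∈ X, (L x : ℝ≥0∞)
        = (supOn X L (A k) ⊔ ⨅ x ∈ X, (L x : ℝ≥0∞)) ⊔
          (supOn X L D ⊔ (S.sup fun i => supOn X L (A i)) ⊔ ⨅ x ∈ X, (L x : ℝ≥0∞)) := by
      apply le_antisymm
      · simp only [sup_le_iff]
        refine ⟨⟨?_, ?_, ?_⟩, ?_⟩
        · exact le_sup_of_le_right (le_sup_of_le_left le_sup_left)
        · exact le_sup_of_le_left le_sup_left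
        · exact le_sup_of_le_right (le_sup_of_le_left le_sup_right)
        · exact le_sup_of_le_left le_sup_right
      · simp only [sup_le_iff]
        refine ⟨⟨?_, ?_⟩, ⟨?_, ?_⟩, ?_⟩
        · exact le_sup_of_le_left (le_sup_of_le_right le_sup_left)
        · exact le_sup_right
        · exact le_sup_of_le_left le_sup_left
        · exact le_sup_of_le_left (le_sup_of_le_right le_sup_right)
        · exact le_sup_right
    rw [e, ih, sup_left_comm]

theorem tsub_sup_inf {ι : Type*} (C b0 : ℝ≥0∞) (a : ι → ℝ≥0∞) (I : Finset ι) :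
    C - (b0 ⊔ I.sup a) = (C - b0) ⊓ I.inf fun i => C - a i := by
  classical
  have hanti : Antitone fun x : ℝ≥0∞ => C - x := fun x y h => tsub_le_tsub_left h C
  have h2 : ∀ x y : ℝ≥0∞, C - (x ⊔ y) = (C - x) ⊓ (C - y) := fun x y => hanti.map_sup x y
  induction I using Finset.induction_on with
  | empty => simp
  | insert k S _ ih =>
    rw [Finset.sup_insert, Finset.inf_insert, sup_left_comm, h2, ih, ← inf_assoc, ← inf_assoc,
      inf_comm (C - a k)]

section meas

variable [TopologicalSpace E] [MeasurableSpace E] {P : Measure Ω} {X : Ω → Set E} {L : E → ℝ≥0}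

theorem aemeasurable_supOn (hX : IsRandomClosedSet P X) (hL : Measurable L) {A : Set E}
    (hA : MeasurableSet A) : AEMeasurable (fun ω => supOn (X ω) L A) P := by
  apply NullMeasurable.aemeasurable
  have h : @Measurable (NullMeasurableSpace Ω P) ℝ≥0∞ _ _ (fun ω => supOn (X ω) L A) := by
    apply measurable_of_Ioi
    intro c
    have e : (fun ω => supOn (X ω) L A) ⁻¹' Set.Ioi c
        = {ω | (X ω ∩ (A ∩ {x | c < (L x : ℝ≥0∞)})).Nonempty} := by
      ext ω
      simp only [Set.mem_preimage, Set.mem_Ioi, supOn, lt_iSup_iff]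
      constructor
      · rintro ⟨x, hx, hc⟩
        exact ⟨x, hx.1, hx.2, hc⟩
      · rintro ⟨x, hx1, hx2, hc⟩
        exact ⟨x, ⟨hx1, hx2⟩, hc⟩
    have h2 := hX.hit _ (hA.inter (measurableSet_lt (measurable_const (a := c))
      hL.coe_nnreal_ennreal))
    rw [← e] at h2
    exact h2
  exact fun s hs => h hs

theorem aemeasurable_inf (hX : IsRandomClosedSet P X) (hL : Measurable L) :
    AEMeasurable (fun ω => ⨅ x ∈ X ω, (L x : ℝ≥0∞)) P := by
  apply NullMeasurable.aemeasurable
  have h : @Measurable (NullMeasurableSpace Ω P) ℝ≥0∞ _ _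
      (fun ω => ⨅ x ∈ X ω, (L x : ℝ≥0∞)) := by
    apply measurable_of_Iio
    intro c
    have e : (fun ω => ⨅ x ∈ X ω, (L x : ℝ≥0∞)) ⁻¹' Set.Iio c
        = {ω | (X ω ∩ {x | (L x : ℝ≥0∞) < c}).Nonempty} := by
      ext ω
      simp only [Set.mem_preimage, Set.mem_Iio, iInf_lt_iff]
      constructor
      · rintro ⟨x, hx, hc⟩
        exact ⟨x, hx, hc⟩
      · rintro ⟨x, hx1, hc⟩
        exact ⟨x, hx1, hc⟩
    have h2 := hX.hit _ (measurableSet_lt hL.coe_nnreal_ennreal (measurable_const (a := c)))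
    rw [← e] at h2
    exact h2
  exact fun s hs => h hs

theorem aemeasurable_zOn (hX : IsRandomClosedSet P X) (hL : Measurable L) {A : Set E}
    (hA : MeasurableSet A) : AEMeasurable (fun ω => zOn (X ω) L A) P :=
  (aemeasurable_supOn hX hL hA).sup (aemeasurable_inf hX hL)

theorem aemeasurable_infOff (hX : IsRandomClosedSet P X) (hL : Measurable L) {A : Set E}
    (hA : MeasurableSet A) : AEMeasurable (fun ω => infOff (X ω) L A) P := by
  classical
  have e : (fun ω => infOff (X ω) L A)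
      = ({ω | (X ω ∩ A).Nonempty}ᶜ).indicator (fun ω => ⨅ x ∈ X ω, (L x : ℝ≥0∞)) := by
    funext ω
    unfold infOff
    by_cases h : (X ω ∩ A).Nonempty
    · rw [if_pos h, Set.indicator_of_notMem]
      simpa using h
    · rw [if_neg h, Set.indicator_of_mem]
      simpa using h
  rw [e]
  exact (aemeasurable_inf hX hL).indicator₀ (hX.hit A hA).compl

end meas

theorem tendsto_reg {s t : ℝ} (hs : 0 ≤ s) (ht : 0 ≤ t) :
    Tendsto (fun δ : ℝ => s / (s + t + δ)) (𝓝[>] 0) (𝓝 (s / (s + t))) := by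
  by_cases h : s + t = 0
  · have h0 : s = 0 := by linarith
    simp [h0]
  · have h1 : ContinuousAt (fun δ : ℝ => s / (s + t + δ)) 0 := by
      refine ContinuousAt.div continuousAt_const (by fun_prop) ?_
      simpa using h
    have h2 := h1.tendsto
    simp only [add_zero] at h2
    exact h2.mono_left nhdsWithin_le_nhds

/-- abstract final step: if `1 - q_δ` are the regularised values, pass to the limit -/
theorem alternating_of_reg {E : Type*} {n : ℕ} (hn : n ≠ 0) (A : Fin n → Set E)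
    (v : Set E → ℝ) (vd : ℝ → Set E → ℝ)
    (hlim : ∀ B : Set E, Tendsto (fun δ => vd δ B) (𝓝[>] 0) (𝓝 (v B)))
    (hq : ∀ δ : ℝ, 0 < δ → ∃ q : Finset (Fin n) → ℝ, CM q ∧
      ∀ I : Finset (Fin n), vd δ ((⋂ i, A i) ∪ ⋃ i ∈ I, A i) = 1 - q I) :
    v (⋂ i, A i) ≤
      ∑ I : Finset (Fin n) with I.Nonempty, (-1 : ℝ) ^ (I.card + 1) * v (⋃ i ∈ I, A i) := by
  classical
  have hU : ∀ I : Finset (Fin n), I.Nonempty →
      (⋂ i, A i) ∪ ⋃ i ∈ I, A i = ⋃ i ∈ I, A i := by
    intro I hI
    obtain ⟨k, hk⟩ := hI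
    apply Set.union_eq_self_of_subset_left
    intro x hx
    rw [Set.mem_iInter] at hx
    rw [Set.mem_iUnion₂]
    exact ⟨k, hk, hx k⟩
  refine le_of_tendsto_of_tendsto (hlim _)
    (tendsto_finsetSum _ fun I _ => (hlim (⋃ i ∈ I, A i)).const_mul _) ?_
  filter_upwards [self_mem_nhdsWithin] with δ hδ
  obtain ⟨q, hq1, hq2⟩ := hq δ hδ
  have h := hq1.alternating hn
  have h0 : vd δ (⋂ i, A i) = 1 - q ∅ := by
    have := hq2 ∅
    simpa using this
  rw [h0]
  refine h.trans (le_of_eq ?_)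
  refine Finset.sum_congr rfl fun I hI => ?_
  rw [Finset.mem_filter] at hI
  rw [← hq2 I, hU I hI.2]

theorem alternating_posterior [TopologicalSpace E] [MeasurableSpace E] (P : Measure Ω)
    (X : Ω → Set E) (L : E → ℝ≥0) (hX : IsRandomClosedSet P X) (hL : Measurable L)
    (hfin : ∫⁻ ω, ⨆ x ∈ X ω, (L x : ℝ≥0∞) ∂P ≠ ⊤) {n : ℕ} (hn : n ≠ 0) :
    IsAlternating n (posteriorUpper P X L) := by
  classical
  intro A hA
  have hD : MeasurableSet (⋂ i, A i) := MeasurableSet.iInter hA
  have hUm : ∀ I : Finset (Fin n), MeasurableSet ((⋂ i, A i) ∪ ⋃ i ∈ I, A i) := fun I =>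
    hD.union (MeasurableSet.biUnion (Set.to_countable _) fun i _ => hA i)
  -- the upper bound
  have hCz : ∀ ω B, zOn (X ω) L B ≤ ⨆ x ∈ X ω, (L x : ℝ≥0∞) := by
    intro ω B
    unfold zOn
    refine sup_le ?_ ?_
    · unfold supOn
      exact iSup₂_le fun x hx => le_iSup₂ (f := fun x (_ : x ∈ X ω) => (L x : ℝ≥0∞)) x hx.1
    · obtain ⟨x, hx⟩ := hX.nonempty ω
      exact (iInf₂_le x hx).trans (le_iSup₂ (f := fun x (_ : x ∈ X ω) => (L x : ℝ≥0∞)) x hx)
  have hCm : AEMeasurable (fun ω => ⨆ x ∈ X ω, (L x : ℝ≥0∞)) P := by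
    have := aemeasurable_supOn hX hL MeasurableSet.univ
    unfold supOn at this
    simpa using this
  have hzfin : ∀ B, ∫⁻ ω, zOn (X ω) L B ∂P ≠ ⊤ := fun B =>
    ne_top_of_le_ne_top hfin (lintegral_mono fun ω => hCz ω B)
  have hsfin : ∀ B, sFun P X L B ≠ ⊤ := fun B =>
    ne_top_of_le_ne_top (hzfin B) (lintegral_mono fun ω => le_sup_left)
  have htz : ∀ ω B, infOff (X ω) L B ≤ zOn (X ω) L B := fun ω B => by
    rw [zOn_eq]; exact le_add_self
  have htfin : ∀ B, tFun P X L B ≠ ⊤ := fun B =>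
    ne_top_of_le_ne_top (hzfin B) (lintegral_mono fun ω => htz ω B)
  have hst : ∀ B, MeasurableSet B →
      (∫⁻ ω, zOn (X ω) L B ∂P).toReal = (sFun P X L B).toReal + (tFun P X L B).toReal := by
    intro B hB
    rw [← ENNReal.toReal_add (hsfin B) (htfin B)]
    congr 1
    unfold sFun tFun
    rw [← lintegral_add_left' (aemeasurable_supOn hX hL hB)]
    exact lintegral_congr fun ω => zOn_eq _ _ _
  refine alternating_of_reg hn A _
    (fun δ B => (sFun P X L B).toReal / ((sFun P X L B).toReal + (tFun P X L B).toReal + δ))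
    (fun B => tendsto_reg ENNReal.toReal_nonneg ENNReal.toReal_nonneg) ?_
  intro δ hδ
  -- the completely monotone function `h`
  set C : Ω → ℝ≥0∞ := fun ω => ⨆ x ∈ X ω, (L x : ℝ≥0∞) with hC
  set D : Set E := ⋂ i, A i with hDdef
  have hcm := cm_lintegral (P := P) (b0 := fun ω => C ω - zOn (X ω) L D)
    (β := fun i ω => C ω - zOn (X ω) L (A i))
    (hCm.sub (aemeasurable_zOn hX hL hD)) (fun i => hCm.sub (aemeasurable_zOn hX hL (hA i)))
    (ne_top_of_le_ne_top hfin (lintegral_mono fun ω => tsub_le_self))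
  have hcmT := cm_lintegral (P := P) (b0 := fun ω => infOff (X ω) L D)
    (β := fun i ω => infOff (X ω) L (A i))
    (aemeasurable_infOff hX hL hD) (fun i => aemeasurable_infOff hX hL (hA i)) (htfin D)
  have hW : ∀ I : Finset (Fin n), (∫⁻ ω, C ω ∂P).toReal
      = (∫⁻ ω, zOn (X ω) L (D ∪ ⋃ i ∈ I, A i) ∂P).toReal +
        (∫⁻ ω, (C ω - zOn (X ω) L D) ⊓ I.inf (fun i => C ω - zOn (X ω) L (A i)) ∂P).toReal := by
    intro I
    have hpt : ∀ ω, C ω = zOn (X ω) L (D ∪ ⋃ i ∈ I, A i) +
        ((C ω - zOn (X ω) L D) ⊓ I.inf (fun i => C ω - zOn (X ω) L (A i))) := by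
      intro ω
      rw [← tsub_sup_inf, ← zOn_union]
      exact (add_tsub_cancel_of_le (hCz ω _)).symm
    rw [← ENNReal.toReal_add (hzfin _)
      (ne_top_of_le_ne_top hfin (lintegral_mono fun ω => inf_le_left.trans tsub_le_self))]
    rw [← lintegral_add_left' (aemeasurable_zOn hX hL (hUm I))]
    congr 1
    exact lintegral_congr fun ω => hpt ω
  have hT : ∀ I : Finset (Fin n), tFun P X L (D ∪ ⋃ i ∈ I, A i)
      = ∫⁻ ω, infOff (X ω) L D ⊓ I.inf (fun i => infOff (X ω) L (A i)) ∂P := by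
    intro I
    unfold tFun
    exact lintegral_congr fun ω => infOff_biUnion _ _ _ _ _
  have hlt : ∀ I : Finset (Fin n),
      (∫⁻ ω, (C ω - zOn (X ω) L D) ⊓ I.inf (fun i => C ω - zOn (X ω) L (A i)) ∂P).toReal
        < (∫⁻ ω, C ω ∂P).toReal + δ := by
    intro I
    rw [hW I]
    have : 0 ≤ (∫⁻ ω, zOn (X ω) L (D ∪ ⋃ i ∈ I, A i) ∂P).toReal := ENNReal.toReal_nonneg
    linarith
  refine ⟨_, (hcmT.add (CM.const hδ.le)).mul (hcm.inv_sub hlt), fun I => ?_⟩
  rw [← hT I]
  have e1 := hW I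
  have e2 := hst _ (hUm I)
  set S := (sFun P X L (D ∪ ⋃ i ∈ I, A i)).toReal
  set T := (tFun P X L (D ∪ ⋃ i ∈ I, A i)).toReal
  have hS0 : 0 ≤ S := ENNReal.toReal_nonneg
  have hT0 : 0 ≤ T := ENNReal.toReal_nonneg
  have e3 : (∫⁻ ω, C ω ∂P).toReal + δ
      - (∫⁻ ω, (C ω - zOn (X ω) L D) ⊓ I.inf (fun i => C ω - zOn (X ω) L (A i)) ∂P).toReal
      = S + T + δ := by
    rw [e1, e2]; ring
  rw [e3]
  have h0 : S + T + δ ≠ 0 := by positivity
  field_simp
  ring

end Q1

section Q2

theorem antitone_sup_inf {ι : Type*} {φ : ℝ≥0∞ → ℝ≥0∞} (hφ : Antitone φ) (b0 : ℝ≥0∞)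
    (a : ι → ℝ≥0∞) (I : Finset ι) : φ (b0 ⊔ I.sup a) = φ b0 ⊓ I.inf fun i => φ (a i) := by
  classical
  have h2 : ∀ x y : ℝ≥0∞, φ (x ⊔ y) = φ x ⊓ φ y := fun x y => hφ.map_sup x y
  induction I using Finset.induction_on with
  | empty => simp
  | insert k S _ ih =>
    rw [Finset.sup_insert, Finset.inf_insert, sup_left_comm, h2, ih, ← inf_assoc, ← inf_assoc,
      inf_comm (φ (a k))]

theorem cm_min {n : ℕ} {b0 : ℝ≥0∞} (β : Fin n → ℝ≥0∞) (h0 : b0 ≠ ⊤) :
    CM (fun I : Finset (Fin n) => (b0 ⊓ I.inf β).toReal) := by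
  have h := cm_lintegral (Ω := Unit) (P := Measure.dirac ()) (b0 := fun _ => b0)
    (β := fun i _ => β i) aemeasurable_const (fun i => aemeasurable_const)
    (by simpa using h0)
  simpa using h

theorem alternating_contamination {E : Type*} [MeasurableSpace E] (P : Measure E)
    {ε : ℝ} (hε0 : 0 < ε) (hε1 : ε < 1) (L : E → ℝ≥0) (hL : Measurable L)
    (hfin : ∫⁻ x, L x ∂P ≠ ⊤) {n : ℕ} (hn : n ≠ 0) :
    IsAlternating n (contaminationUpper ε P L) := by
  classical
  intro A hA
  have hD : MeasurableSet (⋂ i, A i) := MeasurableSet.iInter hA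
  have hUm : ∀ I : Finset (Fin n), MeasurableSet ((⋂ i, A i) ∪ ⋃ i ∈ I, A i) := fun I =>
    hD.union (MeasurableSet.biUnion (Set.to_countable _) fun i _ => hA i)
  set mE : ℝ := (∫⁻ x, L x ∂P).toReal with hmE
  have hmB : ∀ B : Set E, (∫⁻ x in B, L x ∂P) ≤ ∫⁻ x, L x ∂P := fun B =>
    setLIntegral_le_lintegral _ _
  have hmB' : ∀ B : Set E, (∫⁻ x in B, L x ∂P).toReal ≤ mE := fun B =>
    ENNReal.toReal_mono hfin (hmB B)
  have hmE0 : 0 ≤ mE := ENNReal.toReal_nonneg
  refine alternating_of_reg hn A _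
    (fun δ B => if (⨆ x ∈ B, (L x : ℝ≥0∞)) = ⊤ then 1 else
      ((1 - ε) * (∫⁻ x in B, L x ∂P).toReal + ε * (⨆ x ∈ B, (L x : ℝ≥0∞)).toReal) /
      (((1 - ε) * (∫⁻ x in B, L x ∂P).toReal + ε * (⨆ x ∈ B, (L x : ℝ≥0∞)).toReal) +
        (1 - ε) * (mE - (∫⁻ x in B, L x ∂P).toReal) + δ)) ?_ ?_
  · intro B
    unfold contaminationUpper
    by_cases hB : (⨆ x ∈ B, (L x : ℝ≥0∞)) = ⊤
    · simp [hB]
    · simp only [hB, if_false]
      have h1 : 0 ≤ (1 - ε) * (∫⁻ x in B, L x ∂P).toReal
          + ε * (⨆ x ∈ B, (L x : ℝ≥0∞)).toReal :=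
        add_nonneg (mul_nonneg (by linarith) ENNReal.toReal_nonneg)
          (mul_nonneg hε0.le ENNReal.toReal_nonneg)
      have h2 : 0 ≤ (1 - ε) * (mE - (∫⁻ x in B, L x ∂P).toReal) :=
        mul_nonneg (by linarith) (sub_nonneg.mpr (hmB' B))
      have h3 := tendsto_reg h1 h2
      have e : (1 - ε) * (∫⁻ x in B, L x ∂P).toReal + ε * (⨆ x ∈ B, (L x : ℝ≥0∞)).toReal
          + (1 - ε) * (mE - (∫⁻ x in B, L x ∂P).toReal)
          = (1 - ε) * mE + ε * (⨆ x ∈ B, (L x : ℝ≥0∞)).toReal := by ring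
      rw [e] at h3
      rw [e]
      exact h3
  · intro δ hδ
    set D : Set E := ⋂ i, A i with hDdef
    set φ : ℝ≥0∞ → ℝ≥0∞ := fun x => (ENNReal.ofReal ((1 - ε) * mE + δ) + ENNReal.ofReal ε * x)⁻¹
      with hφ
    have hc0 : 0 < (1 - ε) * mE + δ := by
      have : 0 ≤ (1 - ε) * mE := mul_nonneg (by linarith) hmE0
      linarith
    have hanti : Antitone φ := by
      intro x y hxy
      refine ENNReal.inv_le_inv.mpr ?_
      gcongr
    have hφfin : ∀ x, φ x ≠ ⊤ := by
      intro x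
      rw [hφ]
      simp only [ne_eq, ENNReal.inv_eq_top]
      intro h
      have := (add_eq_zero.mp h).1
      rw [ENNReal.ofReal_eq_zero] at this
      linarith
    have hM : ∀ I : Finset (Fin n), φ (⨆ x ∈ (D ∪ ⋃ i ∈ I, A i), (L x : ℝ≥0∞))
        = φ (⨆ x ∈ D, (L x : ℝ≥0∞)) ⊓ I.inf fun i => φ (⨆ x ∈ A i, (L x : ℝ≥0∞)) := by
      intro I
      rw [← antitone_sup_inf hanti]
      congr 1
      have h1 := supOn_union (Set.univ : Set E) L D (⋃ i ∈ I, A i)
      rw [supOn_biUnion] at h1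
      unfold supOn at h1
      simpa only [Set.univ_inter] using h1
    have hcmR := cm_min (b0 := φ (⨆ x ∈ D, (L x : ℝ≥0∞)))
      (fun i => φ (⨆ x ∈ A i, (L x : ℝ≥0∞))) (hφfin _)
    have hind : ∀ B : Set E, (fun x => infOff ({x} : Set E) L B)
        = Bᶜ.indicator fun x => (L x : ℝ≥0∞) := by
      intro B
      funext x
      unfold infOff
      by_cases hx : x ∈ B
      · rw [if_pos ⟨x, rfl, hx⟩, Set.indicator_of_notMem (by simpa using hx)]
      · rw [if_neg, Set.indicator_of_mem (by simpa using hx)]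
        · simp
        · rintro ⟨y, hy1, hy2⟩
          rw [Set.mem_singleton_iff] at hy1
          exact hx (hy1 ▸ hy2)
    have hTm : ∀ B : Set E, MeasurableSet B →
        AEMeasurable (fun x => infOff ({x} : Set E) L B) P := by
      intro B hB
      rw [hind]
      exact (hL.coe_nnreal_ennreal.indicator hB.compl).aemeasurable
    have hTint : ∀ B : Set E, MeasurableSet B →
        ∫⁻ x, infOff ({x} : Set E) L B ∂P = ∫⁻ x in Bᶜ, L x ∂P := by
      intro B hB
      rw [hind, lintegral_indicator hB.compl]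
    have hcmT := cm_lintegral (P := P) (b0 := fun x => infOff ({x} : Set E) L D)
      (β := fun i x => infOff ({x} : Set E) L (A i)) (hTm D hD) (fun i => hTm _ (hA i))
      (by rw [hTint D hD]; exact ne_top_of_le_ne_top hfin (hmB _))
    have hT : ∀ I : Finset (Fin n),
        (∫⁻ x, infOff ({x} : Set E) L D ⊓ I.inf (fun i => infOff ({x} : Set E) L (A i)) ∂P).toReal
          = mE - (∫⁻ x in (D ∪ ⋃ i ∈ I, A i), L x ∂P).toReal := by
      intro I
      have h1 : ∫⁻ x, infOff ({x} : Set E) L D ⊓ I.inf (fun i => infOff ({x} : Set E) L (A i)) ∂P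
          = ∫⁻ x in (D ∪ ⋃ i ∈ I, A i)ᶜ, L x ∂P := by
        rw [← hTint _ (hUm I)]
        exact lintegral_congr fun x => (infOff_biUnion _ _ _ _ _).symm
      rw [h1]
      have h2 := lintegral_add_compl (μ := P) (fun x => (L x : ℝ≥0∞)) (hUm I)
      have h3 : mE = (∫⁻ x in (D ∪ ⋃ i ∈ I, A i), L x ∂P).toReal
          + (∫⁻ x in (D ∪ ⋃ i ∈ I, A i)ᶜ, L x ∂P).toReal := by
        rw [← ENNReal.toReal_add (ne_top_of_le_ne_top hfin (hmB _))
          (ne_top_of_le_ne_top hfin (hmB _)), h2]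
      linarith
    have hε' : CM (fun _ : Finset (Fin n) => 1 - ε) := CM.const (by linarith)
    refine ⟨_, ((hε'.mul hcmT).add (CM.const hδ.le)).mul hcmR, fun I => ?_⟩
    rw [hT I, ← hM I]
    by_cases hB : (⨆ x ∈ (D ∪ ⋃ i ∈ I, A i), (L x : ℝ≥0∞)) = ⊤
    · rw [if_pos hB, hB]
      have : φ ⊤ = 0 := by
        rw [hφ]
        simp only
        rw [ENNReal.mul_top (by simpa using hε0)]
        simp
      rw [this]
      simp
    · rw [if_neg hB]
      have hφv : (φ (⨆ x ∈ (D ∪ ⋃ i ∈ I, A i), (L x : ℝ≥0∞))).toReal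
          = 1 / ((1 - ε) * mE + δ
            + ε * (⨆ x ∈ (D ∪ ⋃ i ∈ I, A i), (L x : ℝ≥0∞)).toReal) := by
        rw [hφ]
        simp only
        rw [ENNReal.toReal_inv, ENNReal.toReal_add ENNReal.ofReal_ne_top
          (ENNReal.mul_ne_top ENNReal.ofReal_ne_top hB), ENNReal.toReal_ofReal hc0.le,
          ENNReal.toReal_mul, ENNReal.toReal_ofReal hε0.le, one_div]
      rw [hφv]
      set M := (⨆ x ∈ (D ∪ ⋃ i ∈ I, A i), (L x : ℝ≥0∞)).toReal
      set mB := (∫⁻ x in (D ∪ ⋃ i ∈ I, A i), L x ∂P).toReal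
      have hM0 : 0 ≤ M := ENNReal.toReal_nonneg
      have h0 : (1 - ε) * mE + δ + ε * M ≠ 0 := by
        have := mul_nonneg hε0.le hM0
        linarith
      have e1 : (1 - ε) * mB + ε * M + (1 - ε) * (mE - mB) + δ = (1 - ε) * mE + δ + ε * M := by
        ring
      rw [e1]
      field_simp
      ring

end Q2

/-- **MP_bae362_pr, Q1 and Q2: `N₁ = N₂ = ∞`.**

(1) For every random closed set `X` in a locally compact second countable Hausdorff space and
every Borel likelihood `L` (with `E sup_X L < ∞`, so that `v_y` is well defined) the posterior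
upper probability `v_y = s/(s+t)` is `n`-alternating for every `n >= 1`.

(2) For every `0 < ε < 1`, every prior `P` and every Borel likelihood `L` with finite marginal,
the posterior upper probability of the `ε`-contamination model is `n`-alternating for every
`n >= 1`. -/
theorem result.{u, v} :
    (∀ (Ω : Type u) (E : Type v) [MeasurableSpace Ω] [TopologicalSpace E] [T2Space E]
      [LocallyCompactSpace E] [SecondCountableTopology E] [MeasurableSpace E] [BorelSpace E]
      (P : Measure Ω) [IsProbabilityMeasure P] (X : Ω → Set E) (L : E → ℝ≥0),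
      IsRandomClosedSet P X → Measurable L → ∫⁻ ω, ⨆ x ∈ X ω, (L x : ℝ≥0∞) ∂P ≠ ⊤ →
      ∀ n : ℕ, 1 ≤ n → IsAlternating n (posteriorUpper P X L)) ∧
    (∀ (E : Type v) [TopologicalSpace E] [T2Space E]
      [LocallyCompactSpace E] [SecondCountableTopology E] [MeasurableSpace E] [BorelSpace E]
      (P : Measure E) [IsProbabilityMeasure P] (L : E → ℝ≥0) (ε : ℝ),
      0 < ε → ε < 1 → Measurable L → ∫⁻ x, L x ∂P ≠ ⊤ →
      ∀ n : ℕ, 1 ≤ n → IsAlternating n (contaminationUpper ε P L)) := by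
  refine ⟨?_, ?_⟩
  · intro Ω E _ _ _ _ _ _ _ P _ X L hX hL hfin n hn
    exact alternating_posterior P X L hX hL hfin (by omega)
  · intro E _ _ _ _ _ _ P _ L ε h0 h1 hL hfin n hn
    exact alternating_contamination P h0 h1 L hL hfin (by omega)

end Pool.Agent.Results.MP_bae362_pr.CompletelyAlternating
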